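import Pool.Agent.Y305.SK.Stm

/-!
# SK-SPREAD: contracted Kakeya sets placed radially are disjoint
-/

set_option autoImplicit false

open MeasureTheory Metric Set Filter Topology
open scoped ENNReal

namespace Pool.Agent.Y436.SK

open Pool.Agent.Y305.SK

/-- a finite separated net -/
lemma exists_net {n : ℕ} (A : Set (V n)) (δ : ℝ) (hδ : 0 < δ) (hA : ∀ e ∈ A, ‖e‖ = 1) :
    ∃ U : Finset (V n), (∀ u ∈ U, u ∈ A) ∧ (∀ e ∈ A, ∃ u ∈ U, ‖e - u‖ ≤ δ) ∧
      ∀ u ∈ U, ∀ u' ∈ U, u ≠ u' → δ / 2 ≤ ‖u - u'‖ := by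
  classical
  have htb : TotallyBounded A := by
    refine (isCompact_closedBall (0 : V n) 1).totallyBounded.subset ?_
    intro e he
    rw [mem_closedBall_zero_iff, hA e he]
  obtain ⟨t, htA, htf, hcov⟩ := Metric.finite_approx_of_totallyBounded htb (δ / 2) (by positivity)
  set T : Finset (V n) := htf.toFinset with hT
  have hTmem : ∀ c, c ∈ T ↔ c ∈ t := fun c => htf.mem_toFinset
  set S : Finset (Finset (V n)) := T.powerset.filter
    (fun U => ∀ u ∈ U, ∀ u' ∈ U, u ≠ u' → δ / 2 ≤ ‖u - u'‖) with hS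
  have hne : S.Nonempty := ⟨∅, by simp [hS]⟩
  obtain ⟨U, hU, hmax⟩ := Finset.exists_max_image S Finset.card hne
  rw [hS, Finset.mem_filter, Finset.mem_powerset] at hU
  obtain ⟨hUT, hsep⟩ := hU
  have hnear : ∀ c ∈ T, ∃ u ∈ U, ‖c - u‖ ≤ δ / 2 := by
    intro c hc
    by_contra hcon
    have hcU : c ∉ U := fun h => hcon ⟨c, h, by rw [sub_self, norm_zero]; positivity⟩
    have hfar : ∀ u ∈ U, δ / 2 ≤ ‖c - u‖ := by
      intro u hu
      by_contra h
      exact hcon ⟨u, hu, (not_le.1 h).le⟩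
    have hins : insert c U ∈ S := by
      rw [hS, Finset.mem_filter, Finset.mem_powerset]
      refine ⟨Finset.insert_subset hc hUT, ?_⟩
      intro u hu u' hu' huu
      rw [Finset.mem_insert] at hu hu'
      rcases hu with rfl | hu <;> rcases hu' with rfl | hu'
      · exact absurd rfl huu
      · exact hfar u' hu'
      · rw [norm_sub_rev]; exact hfar u hu
      · exact hsep u hu u' hu' huu
    have h1 := hmax _ hins
    rw [Finset.card_insert_of_notMem hcU] at h1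
    omega
  refine ⟨U, fun u hu => htA ((hTmem u).1 (hUT hu)), fun e he => ?_, hsep⟩
  have h1 := hcov he
  rw [mem_iUnion₂] at h1
  obtain ⟨c, hc, hec⟩ := h1
  obtain ⟨u, hu, hcu⟩ := hnear c ((hTmem c).2 hc)
  refine ⟨u, hu, ?_⟩
  rw [mem_ball, dist_eq_norm] at hec
  calc ‖e - u‖ = ‖(e - c) + (c - u)‖ := by congr 1; abel
    _ ≤ ‖e - c‖ + ‖c - u‖ := norm_add_le _ _
    _ ≤ δ := by linarith

lemma norm_far {n : ℕ} {u u' : V n} (hu : ‖u‖ = 1) (hu' : ‖u'‖ = 1) {α β c d : ℝ} (hc : 0 ≤ c)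
    (hα : c ≤ α) (hβ : c ≤ β) (hd : 0 ≤ d) (h : d ≤ ‖u - u'‖) : c * d ≤ ‖α • u - β • u'‖ := by
  have h1 : ‖α • u - β • u'‖ ^ 2 = (α - β) ^ 2 + α * β * ‖u - u'‖ ^ 2 := by
    rw [norm_sub_sq_real, norm_sub_sq_real, norm_smul, norm_smul, hu, hu', real_inner_smul_left,
      real_inner_smul_right, Real.norm_eq_abs, Real.norm_eq_abs, mul_one, mul_one, sq_abs, sq_abs]
    ring
  have h2 : (c * d) ^ 2 ≤ ‖α • u - β • u'‖ ^ 2 := by
    rw [h1]
    have h3 : c * c ≤ α * β := mul_le_mul hα hβ hc (hc.trans hα)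
    have h4 : d ^ 2 ≤ ‖u - u'‖ ^ 2 := pow_le_pow_left₀ hd h 2
    have h5 : (c * c) * d ^ 2 ≤ (α * β) * ‖u - u'‖ ^ 2 :=
      mul_le_mul h3 h4 (by positivity) (by nlinarith)
    nlinarith [sq_nonneg (α - β)]
  exact (sq_le_sq₀ (by positivity) (norm_nonneg _)).1 h2

theorem spread (hP : S_PIECE) : S_SPREAD := by
  classical
  intro n K M hK hKM hM A e₀ x₀ R δ he₀ hR hδ hδ1 hA
  have hM0 : 0 < M := by linarith
  obtain ⟨U, hUA, hnet, hsep⟩ := exists_net A δ hδ (fun e he => (hA e he).1)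
  have hpiece : ∀ u : V n, ∃ W : Set (V n), ‖u‖ = 1 → (IsCompact W ∧ dimH W ≤ dimH K ∧
      W ⊆ tube (2 * M) 0 u (2 * M * δ) ∧ ∀ e : V n, ‖e‖ = 1 → ‖e - u‖ ≤ δ → Has W e) := by
    intro u
    by_cases hu : ‖u‖ = 1
    · obtain ⟨W, hW⟩ := hP n K M hK hKM hM u δ hu hδ hδ1
      exact ⟨W, fun _ => hW⟩
    · exact ⟨∅, fun h => absurd h hu⟩
  choose Wp hWp using hpiece
  have hunit : ∀ u ∈ U, ‖u‖ = 1 := fun u hu => (hA u (hUA u hu)).1
  set v : V n → V n := fun u => x₀ + (20 * M) • (u - e₀) with hv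
  set F : V n → Set (V n) := fun u => (fun y => v u + y) '' Wp u with hF
  have hFc : ∀ u ∈ U, IsCompact (F u) := fun u hu =>
    (hWp u (hunit u hu)).1.image (by fun_prop)
  have hFtube : ∀ u ∈ U, F u ⊆ tube (2 * M) (v u) u (2 * M * δ) := by
    rintro u hu _ ⟨y, hy, rfl⟩
    obtain ⟨t, ht, hyt⟩ := (hWp u (hunit u hu)).2.2.1 hy
    refine ⟨t, ht, ?_⟩
    have e1 : v u + y - (v u + t • u) = y - (0 + t • u) := by rw [zero_add]; abel
    show ‖v u + y - (v u + t • u)‖ ≤ _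
    rw [e1]
    exact hyt
  have hdisj : ∀ u ∈ U, ∀ u' ∈ U, u ≠ u' → Disjoint (F u) (F u') := by
    intro u hu u' hu' huu
    rw [Set.disjoint_left]
    intro z hz hz'
    obtain ⟨t, ht, h1⟩ := hFtube u hu hz
    obtain ⟨t', ht', h2⟩ := hFtube u' hu' hz'
    rw [abs_le] at ht ht'
    have h3 : ‖(20 * M + t) • u - (20 * M + t') • u'‖ ≤ 4 * M * δ := by
      have e1 : (20 * M + t) • u - (20 * M + t') • u' =
          (z - (v u' + t' • u')) - (z - (v u + t • u)) := by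
        simp only [hv, smul_sub, add_smul]
        abel
      rw [e1]
      refine (norm_sub_le _ _).trans ?_
      linarith
    have h4 := norm_far (hunit u hu) (hunit u' hu') (α := 20 * M + t) (β := 20 * M + t')
      (c := 18 * M) (d := δ / 2) (by positivity) (by linarith) (by linarith) (by positivity)
      (hsep u hu u' hu' huu)
    have h5 : 0 < M * δ := by positivity
    nlinarith
  refine ⟨⋃ u ∈ U, F u, U.isCompact_biUnion hFc, ?_, ?_, ?_, ?_⟩
  · have h1 : (⋃ u ∈ U, F u) = ⋃ u ∈ (U : Set (V n)), F u := rfl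
    rw [h1, dimH_bUnion U.countable_toSet]
    refine iSup₂_le fun u hu => ?_
    have h2 : Isometry (fun y : V n => v u + y) := isometry_add_left (v u)
    rw [hF]
    show dimH ((fun y => v u + y) '' Wp u) ≤ _
    rw [h2.dimH_image]
    exact (hWp u (hunit u hu)).2.1
  · intro y hy
    rw [mem_iUnion₂] at hy
    obtain ⟨u, hu, hy⟩ := hy
    refine tube_sub (x' := v u) (u' := u) (r' := 2 * M * δ) ?_ (hFtube u hu hy)
    have h1 : ‖u - e₀‖ ≤ R := (hA u (hUA u hu)).2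
    have h2 : ‖v u - x₀‖ ≤ 20 * M * R := by
      have e1 : v u - x₀ = (20 * M) • (u - e₀) := by simp only [hv]; abel
      rw [e1, norm_smul, Real.norm_eq_abs, abs_of_pos (by positivity)]
      exact mul_le_mul_of_nonneg_left h1 (by positivity)
    have h3 : 2 * M * ‖u - e₀‖ ≤ 2 * M * R := mul_le_mul_of_nonneg_left h1 (by positivity)
    linarith
  · intro e he
    obtain ⟨u, hu, heu⟩ := hnet e he
    obtain ⟨x, hx⟩ := (hWp u (hunit u hu)).2.2.2 e (hA e he).1 heu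
    refine ⟨v u + x, fun t ht => ?_⟩
    rw [mem_iUnion₂]
    refine ⟨u, hu, x + t • e, hx t ht, ?_⟩
    show v u + (x + t • e) = _
    abel
  · intro x e he hseg
    obtain ⟨u, hu, hxu⟩ := seg_in_one U F (fun u hu => (hFc u hu).isClosed) hdisj (x := x)
      (e := e) (fun t ht => by
        have := hseg t ht
        rw [mem_iUnion₂] at this
        obtain ⟨u, hu, h⟩ := this
        exact ⟨u, hu, h⟩)
    refine ⟨u, hUA u hu, ?_⟩
    have h0 : x ∈ tube (2 * M) (v u) u (2 * M * δ) := by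
      have := hFtube u hu (hxu 0 ⟨le_rfl, zero_le_one⟩)
      rwa [zero_smul, add_zero] at this
    have h1 : x + e ∈ tube (2 * M) (v u) u (2 * M * δ) := by
      have := hFtube u hu (hxu 1 ⟨zero_le_one, le_rfl⟩)
      rwa [one_smul] at this
    have h2 := tube_dir (hunit u hu) he h0 h1
    have e2 : 8 * M * δ = 4 * (2 * M * δ) := by ring
    rw [e2]
    exact h2

end Pool.Agent.Y436.SK
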